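import Pool.Agent.TH762.XC.Exp
import Pool.Agent.TH684.EX.Thm

/-!
# Exclusion laws in classes
-/

set_option autoImplicit false

namespace Pool.Agent.TH762.XC

open Pool.Agent.NPC Pool.Agent.H579R2.Spt Pool.Agent.H251R5.PQ Pool.Agent.W901.AT
open Pool.Agent.TH684.EX Pool.Agent.W901.NU
open Pool.Agent.H820R2.SS (InEXPTIME inEXPTIME_of_inNP exists_exptime_not_p)
open Pool.Agent.H623R2.PS (InPSPACE PSPACEHard)

theorem FeasibleIn.mono {C : Set (List Bool) → Prop} {T T' : List (List Bool) → ℕ → Prop}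
    (h : FeasibleIn C T) (hT : ∀ qs l, T qs l → T' qs l) : FeasibleIn C T' := by
  obtain ⟨X, b, hX, h⟩ := h
  refine ⟨X, b, hX, fun n => ?_⟩
  obtain ⟨m, a, hm, ha, h1⟩ := h n
  exact ⟨m, a, hm, ha, fun qs hqs hlen =>
    ⟨(h1 qs hqs hlen).1, hT _ _ (h1 qs hqs hlen).2⟩⟩

/-- the first string of the input -/
def fst0 (z : List Bool) : List Bool := (dp z).1.getD 0 []

theorem fst0_poly : Poly fst0 :=
  NPC.Poly.getD (NPC.Poly.fst dp_poly) (NPC.Poly.const 0) (NPC.Poly.const [])

open Classical in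
theorem feasibleIn_count {C : Set (List Bool) → Prop} (hC : Cl C) {A : Set (List Bool)}
    (hA : C A) : FeasibleIn C (ExcludeCount A) := by
  have h1 : CFn C (fun z : List Bool => decide (fst0 z ∈ A)) :=
    CFn.dec hC ((CPr.of_raw hC hA).comp hC fst0_poly)
  have h2 : CFn C (fun z : List Bool => bif decide (fst0 z ∈ A) then 0 else 1) :=
    (CFn.poly hC (f := fun b : Bool => bif b then 0 else 1)
      (NPC.Poly.cond NPC.Poly.id (NPC.Poly.const 0) (NPC.Poly.const 1))).comp hC h1
  refine ⟨_, 1, computableIn_of_cfn hC h2, fun n => ⟨1, 0, by omega, by omega,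
    fun qs hqs _ => ?_⟩⟩
  obtain ⟨y, rfl⟩ := List.length_eq_one_iff.1 hqs
  simp only [fst0, dp_bits, List.getD_cons_zero]
  by_cases h : y ∈ A
  · rw [decide_eq_true h, cond_true]
    refine ⟨by omega, by simp, ?_⟩
    simp [answers, h]
  · rw [decide_eq_false h, cond_false]
    refine ⟨by omega, by simp, ?_⟩
    simp [answers, h]

open Classical in
theorem feasibleIn_notOnly {C : Set (List Bool) → Prop} (hC : Cl C) {A : Set (List Bool)}
    (hA : C A) : FeasibleIn C (NotOnly A) := by
  have h1 : CFn C (fun z : List Bool => decide (fst0 z ∈ A)) :=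
    CFn.dec hC ((CPr.of_raw hC hA).comp hC fst0_poly)
  have h2 : CFn C (fun z : List Bool => bif decide (fst0 z ∈ A) then 1 else 0) :=
    (CFn.poly hC (f := fun b : Bool => bif b then 1 else 0)
      (NPC.Poly.cond NPC.Poly.id (NPC.Poly.const 1) (NPC.Poly.const 0))).comp hC h1
  refine ⟨_, 2, computableIn_of_cfn hC h2, fun n => ⟨2, 0, by omega, by omega,
    fun qs hqs _ => ?_⟩⟩
  obtain ⟨y, y', rfl⟩ := List.length_eq_two.1 hqs
  simp only [fst0, dp_bits, List.getD_cons_zero]
  by_cases h : y ∈ A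
  · rw [decide_eq_true h, cond_true]
    refine ⟨by omega, by simp, fun h1 => ?_⟩
    have h2 := (h1 0 (by simp)).1 h
    omega
  · rw [decide_eq_false h, cond_false]
    refine ⟨by omega, by simp, fun h1 => ?_⟩
    exact h ((h1 0 (by simp)).2 rfl)

/-- **From exclusion in a class to exponential time in the class.** -/
theorem exp_sub_of_excl {C : Set (List Bool) → Prop} (hC : Cl C) {A L : Set (List Bool)}
    (hA : EXPHard A) (hL : InP L) (h : FeasibleIn C (Exclude L A)) :
    ∀ L' : Set (List Bool), InEXPTIME L' → C L' :=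
  exp_sub_of_hasAdv hC NE node_exp_hard (hasAdv_of_excl hC ttc_exp hA hL h)

/-- **From exclusion in a class to polynomial space in the class.** -/
theorem pspace_sub_of_excl {C : Set (List Bool) → Prop} (hC : Cl C) {A L : Set (List Bool)}
    (hA : PSPACEHard A) (hL : InP L) (h : FeasibleIn C (Exclude L A)) :
    ∀ L' : Set (List Bool), InPSPACE L' → C L' :=
  pspace_sub_of_hasAdv hC (lang nodeP) node_hard
    (hasAdv_of_excl hC (ttc_of_cl cl_pspace node_pspace) hA hL h)

/-- **The exclusion law in a class, for exponential time.** -/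
theorem class_excl_exp {C : Set (List Bool) → Prop} (hC : Cl C) : List.TFAE
    [∀ L : Set (List Bool), InEXPTIME L → C L,
      ∃ A L : Set (List Bool), EXPHard A ∧ InP L ∧ FeasibleIn C (Exclude L A),
      ∃ A : Set (List Bool), EXPHard A ∧ FeasibleIn C (ExcludeCount A),
      ∃ A : Set (List Bool), EXPHard A ∧ FeasibleIn C (NotOnly A)] := by
  tfae_have 2 → 1 := fun ⟨A, L, hA, hL, h⟩ => exp_sub_of_excl hC hA hL h
  tfae_have 3 → 2 := fun ⟨A, hA, h⟩ => ⟨A, Lthr, hA, lthr_inP, h.mono exclude_of_count⟩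
  tfae_have 4 → 2 := fun ⟨A, hA, h⟩ => ⟨A, Lunit, hA, lunit_inP, h.mono exclude_of_notOnly⟩
  tfae_have 1 → 3 := fun h => ⟨_, node_exp_hard, feasibleIn_count hC (h _ node_exp)⟩
  tfae_have 1 → 4 := fun h => ⟨_, node_exp_hard, feasibleIn_notOnly hC (h _ node_exp)⟩
  tfae_finish

/-- **The exclusion law in a class, for polynomial space.** -/
theorem class_excl_pspace {C : Set (List Bool) → Prop} (hC : Cl C) : List.TFAE
    [∀ L : Set (List Bool), InPSPACE L → C L,
      ∃ A L : Set (List Bool), PSPACEHard A ∧ InP L ∧ FeasibleIn C (Exclude L A),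
      ∃ A : Set (List Bool), PSPACEHard A ∧ FeasibleIn C (ExcludeCount A),
      ∃ A : Set (List Bool), PSPACEHard A ∧ FeasibleIn C (NotOnly A)] := by
  tfae_have 2 → 1 := fun ⟨A, L, hA, hL, h⟩ => pspace_sub_of_excl hC hA hL h
  tfae_have 3 → 2 := fun ⟨A, hA, h⟩ => ⟨A, Lthr, hA, lthr_inP, h.mono exclude_of_count⟩
  tfae_have 4 → 2 := fun ⟨A, hA, h⟩ => ⟨A, Lunit, hA, lunit_inP, h.mono exclude_of_notOnly⟩
  tfae_have 1 → 3 := fun h => ⟨_, node_hard, feasibleIn_count hC (h _ node_pspace)⟩
  tfae_have 1 → 4 := fun h => ⟨_, node_hard, feasibleIn_notOnly hC (h _ node_pspace)⟩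
  tfae_finish

/-- If `P = NP` then `P` has the closure properties. -/
theorem cl_inP (hPNP : ∀ L : Set (List Bool), InNP L → InP L) : Cl InP where
  ofP := fun h => h
  pre := fun {L f} hf h => by
    obtain ⟨V, hV, hVL⟩ := h
    exact ⟨fun x => V (f x), PIso.poly_iff.1 ((PIso.poly_iff.2 hV).comp hf), fun x => hVL (f x)⟩
  inter := fun {L L'} h h' => by
    obtain ⟨V, hV, hVL⟩ := h
    obtain ⟨V', hV', hVL'⟩ := h'
    refine ⟨fun x => [decide (V x = [true]) && decide (V' x = [true])], PIso.poly_iff.1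
      (NPC.Poly.cons (NPC.Poly.and (NPC.Poly.decide_eq (PIso.poly_iff.2 hV) (NPC.Poly.const [true]))
        (NPC.Poly.decide_eq (PIso.poly_iff.2 hV') (NPC.Poly.const [true]))) (NPC.Poly.const [])),
      fun x => ?_⟩
    rw [Set.mem_inter_iff, hVL x, hVL' x]
    simp
  compl := fun {L} h => by
    obtain ⟨V, hV, hVL⟩ := h
    refine ⟨fun x => [!decide (V x = [true])], PIso.poly_iff.1
      (NPC.Poly.cons (NPC.Poly.not (NPC.Poly.decide_eq (PIso.poly_iff.2 hV)
        (NPC.Poly.const [true]))) (NPC.Poly.const [])), fun x => ?_⟩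
    rw [Set.mem_compl_iff, hVL x]
    simp
  ex := fun {L} p h => by
    obtain ⟨V, hV, hVL⟩ := h
    refine hPNP _ ⟨V, p, hV, fun x => ?_⟩
    simp only [Set.mem_ofPred_eq, hVL]

theorem feasibleIn_of_feasible {C : Set (List Bool) → Prop} (hC : Cl C)
    {T : List (List Bool) → ℕ → Prop} (h : Feasible T) : FeasibleIn C T := by
  obtain ⟨X, b, hX, h⟩ := h
  exact ⟨X, b, computableIn_of_cfn hC (CFn.poly hC (poly_of_polyTime hX)), h⟩

/-- **No vector can be excluded for a set which is hard for exponential time.** -/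
theorem not_feasible_of_exp {A L : Set (List Bool)} (hA : EXPHard A) (hL : InP L) :
    ¬ Feasible (Exclude L A) := fun h => by
  have hNP : NPHard A := fun L' hL' => hA L' (inEXPTIME_of_inNP hL')
  have hPNP := p_eq_np_of_feasible hNP hL h
  have hC := cl_inP hPNP
  obtain ⟨L', h1, h2⟩ := exists_exptime_not_p
  exact h2 (exp_sub_of_excl hC hA hL (feasibleIn_of_feasible hC h) L' h1)

/-- **The unconditional part.** -/
theorem not_feasible_exp {A : Set (List Bool)} (hA : EXPHard A) :
    (∀ L : Set (List Bool), InP L → ¬ Feasible (Exclude L A)) ∧ ¬ Feasible (ExcludeCount A) ∧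
      ¬ CountQuestions A ∧ ¬ Feasible (NotOnly A) := by
  have h1 : ¬ Feasible (ExcludeCount A) := fun h =>
    not_feasible_of_exp hA lthr_inP (h.mono exclude_of_count)
  exact ⟨fun L hL => not_feasible_of_exp hA hL, h1, fun h => h1 (count_of_questions h),
    fun h => not_feasible_of_exp hA lunit_inP (h.mono exclude_of_notOnly)⟩

end Pool.Agent.TH762.XC
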