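import Pool.Agent.TH762.XC.Laws
import Pool.Agent.W901.HP.HpB

/-!
# Exclusion of one vector in a level of the polynomial hierarchy
-/

set_option autoImplicit false

namespace Pool.Agent.TH762.XC

open Pool.Agent.NPC Pool.Agent.H579R2.Spt Pool.Agent.H251R5.PQ Pool.Agent.W901.AT
open Pool.Agent.TH684.EX Pool.Agent.W901.NU Pool.Agent.W901.PX
open Pool.Agent.W901.FH (hx hx_poly)
open Pool.Agent.W903.GP (Sp SigmaP InPH sigma_mono)
open Pool.Agent.W920.LN (Tb lk lk_poly)
open Pool.Agent.W920.LS (Hard inPSPACE_lang Ln code code_sp hard_of_ps)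
open Pool.Agent.W901.HP (rt sigma_of_cands)
open Pool.Agent.H623R2.PS (InPSPACE PSPACEHard)

/-- the code of a number as a list of optional bits -/
def ev (n : ℕ) : List (Option Bool) := (bits n).map some

theorem ev_poly : Poly ev :=
  NPC.Poly.map (l := fun n : ℕ => bits n) (F := fun _ b => some b) bits_poly
    (NPC.Poly.some (NPC.Poly.snd NPC.Poly.id))

/-- decoding -/
def dvN (v : List Bool) : ℕ :=
  ((unbits (List (Option Bool)) v).elim none fun l => unbits ℕ (l.filterMap id)).getD 0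

theorem dvN_poly : Poly dvN := by
  refine NPC.Poly.optGetD (NPC.Poly.optElim (o := fun v : List Bool =>
    unbits (List (Option Bool)) v) (g := fun _ => none)
    (h := fun _ (l : List (Option Bool)) => unbits ℕ (l.filterMap id)) poly_unbits
    (NPC.Poly.const _) ?_) (NPC.Poly.const 0)
  refine poly_unbits.comp ?_
  have h1 : Poly (fun q : List Bool × List (Option Bool) =>
      q.2.flatMap fun o => o.elim [] fun b => [b]) := by
    refine NPC.Poly.flatMap (l := fun q : List Bool × List (Option Bool) => q.2)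
      (F := fun _ o => o.elim [] fun b => [b]) (NPC.Poly.snd NPC.Poly.id) ?_
    exact NPC.Poly.optElim
      (o := fun q : (List Bool × List (Option Bool)) × Option Bool => q.2)
      (g := fun _ => []) (h := fun _ b => [b]) (NPC.Poly.snd NPC.Poly.id) (NPC.Poly.const _)
      (NPC.Poly.cons (NPC.Poly.snd NPC.Poly.id) (NPC.Poly.const []))
  refine h1.congr fun q => ?_
  generalize q.2 = l
  induction l with
  | nil => rfl
  | cons o l ih =>
    cases o with
    | none => simpa using ih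
    | some b => simpa using ih

theorem dvN_ev (n : ℕ) : dvN (bits (ev n)) = n := by
  unfold dvN ev
  rw [unbits_bits, Option.elim_some, List.filterMap_map]
  simp [unbits_bits]

/-- lookup in a table of strings -/
def lkB (tb : Tb) (k : List (List Bool) × ℕ) : ℕ := dvN (lk tb (bits k))

theorem lkB_poly : Poly (fun q : Tb × (List (List Bool) × ℕ) => lkB q.1 q.2) := by
  have h1 : Poly (fun q : Tb × (List (List Bool) × ℕ) => lk q.1 (bits q.2)) :=
    lk_poly (NPC.Poly.fst NPC.Poly.id) (bits_poly.comp (NPC.Poly.snd NPC.Poly.id))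
  exact dvN_poly.comp h1

theorem lkB_of_rt {X : List Bool → ℕ} {tb : Tb} {k : List (List Bool) × ℕ}
    (h : rt (fun z => ev (X z)) tb (bits k) = true) : lkB tb k = X (bits k) := by
  unfold rt at h
  rw [decide_eq_true_eq] at h
  unfold lkB
  rw [h]
  exact dvN_ev _

theorem cfnS_of_computableIn {k : ℕ} {X : List Bool → ℕ} (h : ComputableIn (SigmaP k) X) :
    CFn (SigmaP k) X := by
  obtain ⟨⟨p, hp⟩, hg⟩ := h
  refine ⟨⟨p, fun a => ?_⟩, ?_⟩
  · have h2 := hp a
    rw [bits_length] at h2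
    exact h2.trans (eval_mono p (length_lt_sz a).le)
  · have h1 : CPr (SigmaP k) (fun x : List Bool => ∃ y, x = pairBits y (bits (X y))) := sOf_raw hg
    have h2 := sComp h1 (f := fun q : List Bool × ℕ => pairBits q.1 (bits q.2))
      (H622R2.poly_pairBits (NPC.Poly.fst NPC.Poly.id) (bits_poly.comp (NPC.Poly.snd NPC.Poly.id)))
    refine h2.congr fun q => ?_
    constructor
    · rintro ⟨y, hy⟩
      have h3 := congrArg unpair hy
      rw [unpair_pairBits, unpair_pairBits, Prod.mk.injEq] at h3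
      rw [h3.1]
      exact (bits_injective h3.2).symm
    · intro h3
      exact ⟨q.1, by rw [h3]⟩

/-- the label predicate of the values of a function -/
def LabS (lam : ℕ × (ℕ × ℕ) → Bool) (f0 : List Bool → List Bool) (q : Qu) : Prop :=
  lam (q.2.1, (hx q.2.2.1 q.2.2.2.1 q.2.2.2.2.2.1 ((f0 q.1).take q.2.2.2.2.1),
    q.2.2.2.2.2.2)) = true

theorem labS_sp {lam : ℕ × (ℕ × ℕ) → Bool} (hlam : Poly lam) {f0 : List Bool → List Bool}
    (hf0 : Sp f0) : PIso.InPSPACE (lang (LabS lam f0)) := by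
  have hbit : Poly (fun z : List Bool × Qu =>
      lam (z.2.2.1, (hx z.2.2.2.1 z.2.2.2.2.1 z.2.2.2.2.2.2.1 (z.1.take z.2.2.2.2.2.1),
        z.2.2.2.2.2.2.2))) := by
    have b1 : Poly (fun z : List Bool × Qu => z.1) := NPC.Poly.fst NPC.Poly.id
    have b2 : Poly (fun z : List Bool × Qu => z.2) := NPC.Poly.snd NPC.Poly.id
    have c1 := NPC.Poly.snd b2
    have em := NPC.Poly.fst c1
    have c2 := NPC.Poly.snd c1
    have eP := NPC.Poly.fst c2
    have c3 := NPC.Poly.snd c2
    have eF := NPC.Poly.fst c3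
    have c4 := NPC.Poly.snd c3
    have ej := NPC.Poly.fst c4
    have c5 := NPC.Poly.snd c4
    have es := NPC.Poly.fst c5
    have ei := NPC.Poly.snd c5
    exact hlam.comp (NPC.Poly.pair em (NPC.Poly.pair (hx_poly eP eF es (take_poly' b1 ej)) ei))
  have h1 : Sp (fun q : Qu => f0 q.1) := hf0.comp (Sp.of_poly (NPC.Poly.fst NPC.Poly.id))
  have h2 := (Sp.pair h1 Sp.id).post hbit
  exact inPSPACE_lang ([], (0, (0, (0, (0, (0, 0)))))) h2 fun a => Iff.rfl

/-- **Candidate lists, with tables.** -/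
theorem sp_candsT {A L : Set (List Bool)} (hA : Hard A) (hL : InP L) {X : List Bool → ℕ} {b : ℕ}
    (hex : ∀ n : ℕ, ∃ m a : ℕ, m ≤ n ^ b + b ∧ a ≤ n ^ b + b ∧ ∀ qs : List (List Bool),
      qs.length = m → (∀ y ∈ qs, y.length ≤ n) →
        X (bits (qs, a)) ≤ n ^ b + b ∧ Exclude L A qs (X (bits (qs, a))))
    {f0 : List Bool → List Bool} (hf0 : Sp f0) (pp : Polynomial ℕ)
    (hlen : ∀ x, (f0 x).length ≤ pp.eval x.length) :
    ∃ (G : Tb × List Bool → List (List Bool)) (Ks : List Bool → List (List Bool))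
      (r : Polynomial ℕ), Poly G ∧ Poly Ks ∧ (∀ q, (G q).length ≤ r.eval (sz q.2)) ∧
      ∀ tb x, (∀ z ∈ Ks x, rt (fun z => ev (X z)) tb z = true) → f0 x ∈ G (tb, x) := by
  classical
  obtain ⟨V, hV, hVL⟩ := hL
  have hlam : Poly (fun q : ℕ × (ℕ × ℕ) => decide (V (bits q) = [true])) :=
    NPC.Poly.decide_eq ((PIso.poly_iff.2 hV).comp bits_poly) (NPC.Poly.const [true])
  set lam : ℕ × (ℕ × ℕ) → Bool := fun q => decide (V (bits q) = [true]) with hlamdef
  obtain ⟨f, hf, hfA⟩ := hA _ (labS_sp hlam hf0)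
  have hqfp : Poly (fun q : Qu => f (bits q)) := (PIso.poly_iff.2 hf).comp bits_poly
  obtain ⟨G, Ks, N, r, hG, hKs, hN, hr, hG2⟩ := engineP (b := b) lkB_poly hqfp pp
  refine ⟨G, fun x => (Ks x).map fun k => bits k, r, hG, ?_, fun q => hr q.1 q.2,
    fun tb x hval => ?_⟩
  · exact NPC.Poly.map (l := Ks) (F := fun _ k => bits k) hKs
      (bits_poly.comp (NPC.Poly.snd NPC.Poly.id))
  · refine hG2 A lam tb x (f0 x) ?_ (hlen x) ?_
    · obtain ⟨m, a, hm, ha, h1⟩ := hex (N x)
      refine ⟨m, a, hm, ha, fun qs' hqs' hlen hk => ?_⟩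
      rw [lkB_of_rt (X := X) (hval _ (List.mem_map.2 ⟨_, hk, rfl⟩))]
      obtain ⟨h2, h3⟩ := h1 qs' hqs' hlen
      refine ⟨h2, fun h4 => h3 ?_⟩
      rw [h4, hqs']
      unfold vec
      refine List.map_congr_left fun i _ => ?_
      exact decide_eq_decide.2 (hVL _).symm
    · intro m P F j s i
      rw [← hfA, bits_mem_lang]
      exact Iff.rfl

/-- **Candidate lists for functions on data, with tables.** -/
theorem sp_candsD {A L : Set (List Bool)} (hA : Hard A) (hL : InP L) {X : List Bool → ℕ} {b : ℕ}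
    (hex : ∀ n : ℕ, ∃ m a : ℕ, m ≤ n ^ b + b ∧ a ≤ n ^ b + b ∧ ∀ qs : List (List Bool),
      qs.length = m → (∀ y ∈ qs, y.length ≤ n) →
        X (bits (qs, a)) ≤ n ^ b + b ∧ Exclude L A qs (X (bits (qs, a))))
    {α β : Type} [TEnc α] [TDec α] [TEnc β] [TDec β] (a0 : α) (b0 : β) {F : α → β} (hF : Sp F) :
    ∃ (G : Tb × α → List β) (Ks : α → List (List Bool)) (r : Polynomial ℕ), Poly G ∧
      Poly Ks ∧ (∀ q, (G q).length ≤ r.eval (sz q.2)) ∧
      ∀ tb a, (∀ z ∈ Ks a, rt (fun z => ev (X z)) tb z = true) → F a ∈ G (tb, a) := by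
  have h1 : NPC.Poly (fun z : List Bool => (unbits α z).getD a0) :=
    NPC.Poly.optGetD poly_unbits (NPC.Poly.const a0)
  have h2 : Sp (fun z : List Bool => bits (F ((unbits α z).getD a0))) :=
    (hF.comp (Sp.of_poly h1)).post bits_poly
  obtain ⟨p, hp⟩ := h2.sz_le
  obtain ⟨G, Ks, r, hG, hKs, hr, hG2⟩ := sp_candsT hA hL hex h2
    (p.comp (Polynomial.C 4 * Polynomial.X + 1)) (fun x => by
      have e1 := hp x
      have e2 := sz_listBool_ge (bits (F ((unbits α x).getD a0)))
      have e3 := eval_mono p (sz_listBool_le x)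
      rw [Polynomial.eval_comp]
      simp only [Polynomial.eval_add, Polynomial.eval_mul, Polynomial.eval_C, Polynomial.eval_X,
        Polynomial.eval_one]
      omega)
  refine ⟨fun q => (G (q.1, bits q.2)).map fun y => (unbits β y).getD b0,
    fun a => Ks (bits a), r.comp (Polynomial.C 4 * Polynomial.X + 1), ?_, hKs.comp bits_poly, ?_,
    fun tb a h => ?_⟩
  · refine NPC.Poly.map (l := fun q : Tb × α => G (q.1, bits q.2))
      (F := fun _ y => (unbits β y).getD b0) ?_ ?_
    · have h3 : NPC.Poly (fun q : Tb × α => ((q.1, bits q.2) : Tb × List Bool)) :=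
        NPC.Poly.pair (NPC.Poly.fst NPC.Poly.id) (bits_poly.comp (NPC.Poly.snd NPC.Poly.id))
      have h4 := hG.comp h3
      exact h4
    · exact NPC.Poly.optGetD (poly_unbits.comp (NPC.Poly.snd NPC.Poly.id)) (NPC.Poly.const b0)
  · intro q
    rw [List.length_map]
    refine (hr (q.1, bits q.2)).trans ?_
    rw [Polynomial.eval_comp]
    refine eval_mono r ?_
    simp only [Polynomial.eval_add, Polynomial.eval_mul, Polynomial.eval_C, Polynomial.eval_X,
      Polynomial.eval_one]
    have e1 := sz_listBool_le (bits q.2)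
    rw [bits_length] at e1
    exact e1
  · refine List.mem_map.2 ⟨_, hG2 tb (bits a) h, ?_⟩
    simp only [unbits_bits, Option.getD_some]

/-- **From exclusion in a level to polynomial space in the level.** -/
theorem level_of_excl {l : ℕ} {A L : Set (List Bool)} (hA : PSPACEHard A) (hL : InP L)
    (h : FeasibleIn (SigmaP (l + 1)) (Exclude L A)) :
    ∀ L' : Set (List Bool), InPSPACE L' → SigmaP (l + 1) L' := fun L' hL' => by
  obtain ⟨X, b, hX, hex⟩ := h
  have hXC := cfnS_of_computableIn hX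
  have hg : CFn (SigmaP (l + 1)) (fun z => ev (X z)) := fComp (fPoly ev_poly) hXC
  obtain ⟨⟨ρ, hρ⟩, _⟩ := id hg
  obtain ⟨G, Ks, r, hG, hKs, hr, hG2⟩ := sp_candsD (hard_of_ps hA) hL hex
    (((0, [], [], []), (0, [])) : Ln) (0 : ℕ) code_sp
  refine sigma_of_cands (p0 := ρ.comp (Polynomial.C 4 * Polynomial.X + 1)) hg (fun z => ?_) hG hKs
    hr hG2 hL'
  rw [bits_length, Polynomial.eval_comp]
  refine (hρ z).trans (eval_mono ρ ?_)
  simp only [Polynomial.eval_add, Polynomial.eval_mul, Polynomial.eval_C, Polynomial.eval_X,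
    Polynomial.eval_one]
  exact sz_listBool_le z

theorem ComputableIn.sub {C D : Set (List Bool) → Prop} (h : ∀ L, C L → D L) {X : List Bool → ℕ}
    (hX : ComputableIn C X) : ComputableIn D X := ⟨hX.1, h _ hX.2⟩

theorem FeasibleIn.sub {C D : Set (List Bool) → Prop} (h : ∀ L, C L → D L)
    {T : List (List Bool) → ℕ → Prop} (hT : FeasibleIn C T) : FeasibleIn D T := by
  obtain ⟨X, b, hX, hT⟩ := hT
  exact ⟨X, b, hX.sub h, hT⟩

/-- **The exclusion law for the levels of the polynomial hierarchy.** -/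
theorem level_excl {j : ℕ} (hj : 1 ≤ j) : List.TFAE
    [∀ L : Set (List Bool), InPSPACE L → SigmaP j L,
      ∃ A L : Set (List Bool), PSPACEHard A ∧ InP L ∧ FeasibleIn (SigmaP j) (Exclude L A),
      ∃ A : Set (List Bool), PSPACEHard A ∧ FeasibleIn (SigmaP j) (ExcludeCount A),
      ∃ A : Set (List Bool), PSPACEHard A ∧ FeasibleIn (SigmaP j) (NotOnly A)] := by
  obtain ⟨l, rfl⟩ : ∃ l, j = l + 1 := ⟨j - 1, by omega⟩
  tfae_have 2 → 1 := fun ⟨A, L, hA, hL, h⟩ => level_of_excl hA hL h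
  tfae_have 3 → 2 := fun ⟨A, hA, h⟩ => ⟨A, Lthr, hA, lthr_inP, h.mono exclude_of_count⟩
  tfae_have 4 → 2 := fun ⟨A, hA, h⟩ => ⟨A, Lunit, hA, lunit_inP, h.mono exclude_of_notOnly⟩
  tfae_have 1 → 3 := fun h => ⟨_, node_hard, (feasibleIn_count cl_pspace node_pspace).sub h⟩
  tfae_have 1 → 4 := fun h => ⟨_, node_hard, (feasibleIn_notOnly cl_pspace node_pspace).sub h⟩
  tfae_finish

end Pool.Agent.TH762.XC
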