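import Pool.Agent.TH762.XC.Cls

/-!
# Truth-table closure of polynomial space and of exponential time
-/

set_option autoImplicit false

namespace Pool.Agent.TH762.XC

open Pool.Agent.NPC Pool.Agent.H579R2.Spt Pool.Agent.H251R5.PQ Pool.Agent.W901.AT
open Pool.Agent.TH684.EX Pool.Agent.W901.NU
open Pool.Agent.H820R2.SS (ARM ARule ARMPr ARMAcc InEXPTIME Gen genB genB_iff poly_genB Pad
  inEXPTIME_of_padded)

theorem ttc_of_cl {K : Set (List Bool) → Prop} (hK : Cl K) {B : Set (List Bool)} (hB : K B) :
    TTc K B := by
  classical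
  intro qs g hqs hg
  have h0 : CPr K (fun q : List Bool × List Bool => q.2 ∈ B) :=
    (CPr.of_raw hK hB).comp hK (f := fun q : List Bool × List Bool => q.2)
      (NPC.Poly.snd NPC.Poly.id)
  have h1 : CFn K (fun x : List Bool => answers B (qs x)) := by
    refine (CFn.map hK (l := qs) (F := fun q : List Bool × List Bool => decide (q.2 ∈ B)) hqs
      (CFn.dec hK h0)).congr fun x => ?_
    rfl
  have h2 : CFn K (fun x : List Bool => g (x, answers B (qs x))) :=
    (CFn.poly hK hg).comp hK ((CFn.poly hK NPC.Poly.id).pair hK h1)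
  exact CPr.to_raw hK (CFn.isTrue hK h2)

/-- The complete set for exponential time. -/
def NE : Set (List Bool) := lang (fun z : ARM × Nd => ndv z = true)

/-- the decision procedure for `NE` on one string -/
def dne (y : List Bool) : Bool := genB mA locE startE (unbits (ARM × Nd) y)

theorem dne_iff (y : List Bool) : dne y = true ↔ y ∈ NE := by
  unfold dne NE
  rw [genB_iff, mem_lang_iff]
  cases hx : unbits (ARM × Nd) y with
  | none =>
    simp only [reduceCtorEq, false_and, exists_false, iff_false]
    intro h
    cases h with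
    | mk _ cs h1 h2 h3 h4 =>
      unfold locE at h3
      simp at h3
  | some z =>
    simp only [Option.some.injEq, exists_eq_left']
    exact gen_iff z

/-- the size parameter of a question -/
def mq (y : List Bool) : ℕ := mA (unbits (ARM × Nd) y)

theorem mq_upoly : UPoly mq := mA_upoly.comp poly_unbits

theorem pad_nonempty : Nonempty (Pad mA) :=
  ⟨⟨(none, List.replicate (2 ^ ((mA none + 1) * (mA none + 1))) ()), by
    rw [List.length_replicate]⟩⟩

/-- some padded input -/
noncomputable def pad0 : Pad mA := Classical.choice pad_nonempty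

theorem poly_toSub {γ δ : Type} [TEnc γ] [TEnc δ] {P : δ → Prop} {f : γ → {x : δ // P x}}
    (h : Poly (fun a => (f a).1)) : Poly f := h

/-- is the pad long enough? -/
def pqc (q : List Unit × List Bool) : Bool :=
  decide (2 ^ ((mq q.2 + 1) * (mq q.2 + 1)) ≤ q.1.length)

theorem pqc_poly : Poly pqc := by
  have u1 : UPoly (fun q : List Unit × List Bool => mq q.2 + 1) :=
    (mq_upoly.comp (NPC.Poly.snd NPC.Poly.id)).add (UPoly.const 1)
  exact NPC.Poly.decide_le (two_pow_poly (u1.mul u1))
    (NPC.Poly.length (NPC.Poly.fst NPC.Poly.id))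

/-- the padded question -/
noncomputable def pq (q : List Unit × List Bool) : Pad mA :=
  if h : pqc q = true then ⟨(unbits (ARM × Nd) q.2, q.1), of_decide_eq_true h⟩ else pad0

/-- the padded question without the proof -/
noncomputable def pqv (q : List Unit × List Bool) : Option (ARM × Nd) × List Unit :=
  bif pqc q then (unbits (ARM × Nd) q.2, q.1) else pad0.1

theorem pqv_poly : Poly pqv := by
  have h1 : Poly (fun q : List Unit × List Bool =>
      ((unbits (ARM × Nd) q.2, q.1) : Option (ARM × Nd) × List Unit)) :=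
    NPC.Poly.pair (poly_unbits.comp (NPC.Poly.snd NPC.Poly.id)) (NPC.Poly.fst NPC.Poly.id)
  have h2 : Poly (fun _ : List Unit × List Bool => pad0.1) := NPC.Poly.const _
  exact NPC.Poly.cond pqc_poly h1 h2

theorem pq_val (q : List Unit × List Bool) : (pq q).1 = pqv q := by
  unfold pq pqv
  by_cases h : pqc q = true
  · rw [dif_pos h, h, cond_true]
  · rw [dif_neg h]
    rw [Bool.not_eq_true] at h
    rw [h, cond_false]

theorem pq_poly : Poly pq := poly_toSub (pqv_poly.congr fun q => (pq_val q).symm)

theorem pq_eq {q : List Unit × List Bool}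
    (h : 2 ^ ((mq q.2 + 1) * (mq q.2 + 1)) ≤ q.1.length) :
    (pq q).1.1 = unbits (ARM × Nd) q.2 := by
  rw [pq_val]
  unfold pqv
  have h1 : pqc q = true := decide_eq_true h
  rw [h1, cond_true]

/-- **Exponential time is closed under truth-table reductions.** -/
theorem ttc_exp : TTc InEXPTIME NE := by
  classical
  intro qs g hqs hg
  obtain ⟨r, hr⟩ := mq_upoly.sz_le
  have hrle : ∀ y, mq y ≤ r.eval (sz y) := by
    intro y
    have h1 := hr y
    have h2 := length_lt_sz (List.replicate (mq y) ())
    rw [List.length_replicate] at h2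
    omega
  set S : List Bool → ℕ := fun x => r.eval (bits (qs x)).length + 1 with hS
  have hSU : UPoly S := ((UPoly.length (bits_poly.comp hqs)).eval r).add (UPoly.const 1)
  refine inEXPTIME_of_padded (A := List Bool) (f := fun x => x)
    (PC.comp (g := fun x : List Bool => x) (f := fun x => x) (NPC.Poly.id) PC.rawIn)
    (g := fun x => g (x, answers NE (qs x))) (m := fun x => S x * S x) (hSU.mul hSU) ?_
    (L := {x | g (x, answers NE (qs x)) = true}) (fun x => Iff.rfl)
  have e1 : Poly (fun x : {x : List Bool × List Unit // 2 ^ (S x.1 * S x.1) ≤ x.2.length} =>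
      x.1.1) := NPC.Poly.fst (Poly.val _)
  have e2 : Poly (fun x : {x : List Bool × List Unit // 2 ^ (S x.1 * S x.1) ≤ x.2.length} =>
      x.1.2) := NPC.Poly.snd (Poly.val _)
  refine hg.comp (NPC.Poly.pair e1 ?_)
  have h1 : Poly (fun x : {x : List Bool × List Unit // 2 ^ (S x.1 * S x.1) ≤ x.2.length} =>
      (qs x.1.1).map fun y => genB mA locE startE (pq (x.1.2, y)).1.1) := by
    refine NPC.Poly.map
      (l := fun x : {x : List Bool × List Unit // 2 ^ (S x.1 * S x.1) ≤ x.2.length} => qs x.1.1)
      (F := fun x y => genB mA locE startE (pq (x.1.2, y)).1.1) (hqs.comp e1) ?_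
    exact (poly_genB mA_upoly locE_poly startE_poly).comp (pq_poly.comp (NPC.Poly.pair
      (e2.comp (NPC.Poly.fst NPC.Poly.id)) (NPC.Poly.snd NPC.Poly.id)))
  refine h1.congr fun x => ?_
  unfold answers
  refine List.map_congr_left fun y hy => ?_
  have h2 : 2 ^ ((mq y + 1) * (mq y + 1)) ≤ x.1.2.length := by
    refine le_trans (Nat.pow_le_pow_right (by norm_num) ?_) x.2
    have h3 : mq y + 1 ≤ S x.1.1 := by
      have h4 := sz_le_of_mem hy
      have h5 := (hrle y).trans (eval_mono r h4.le)
      simp only [hS, bits_length]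
      omega
    exact Nat.mul_le_mul h3 h3
  rw [pq_eq (q := (x.1.2, y)) h2, Bool.eq_iff_iff, decide_eq_true_eq]
  exact dne_iff y

end Pool.Agent.TH762.XC
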